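import Mathlib

open Set Filter Cardinal

namespace Pool.Agent.Helper70.RS

/-- a fast growing sequence of types -/
def K : ℕ → Type
  | 0 => ℕ
  | n + 1 => Set (Set (K n))

/-- the `n`-th column -/
def Zc (n : ℕ) : Type := Set (K n)

theorem mk_Zc (n : ℕ) : #(Zc n) = 2 ^ #(K n) := Cardinal.mk_set

theorem mk_K_succ (n : ℕ) : #(K (n + 1)) = 2 ^ #(Zc n) := by
  show #(Set (Set (K n))) = _
  rw [Cardinal.mk_set]; rfl

theorem K_lt_Zc (n : ℕ) : #(K n) < #(Zc n) := by
  rw [mk_Zc]; exact Cardinal.cantor _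

theorem Zc_lt_K (n : ℕ) : #(Zc n) < #(K (n + 1)) := by
  rw [mk_K_succ]; exact Cardinal.cantor _

theorem K_inf (n : ℕ) : ℵ₀ ≤ #(K n) := by
  induction n with
  | zero => show ℵ₀ ≤ #ℕ; simp
  | succ n ih => exact ih.trans ((K_lt_Zc n).trans (Zc_lt_K n)).le

theorem Zc_inf (n : ℕ) : ℵ₀ ≤ #(Zc n) := (K_inf n).trans (K_lt_Zc n).le

theorem K_mono {i j : ℕ} (h : i ≤ j) : #(K i) ≤ #(K j) := by
  induction h with
  | refl => exact le_rfl
  | step _ ih => exact ih.trans ((K_lt_Zc _).trans (Zc_lt_K _)).le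

theorem Zc_mono {i j : ℕ} (h : i ≤ j) : #(Zc i) ≤ #(Zc j) := by
  rw [mk_Zc, mk_Zc]
  exact Cardinal.power_le_power_left two_ne_zero (K_mono h)

/-- small subsets of a column -/
def Sm (l : ℕ) (S : Set (Zc l)) : Prop := #S ≤ #(K l)

theorem Sm.mono {l : ℕ} {S T : Set (Zc l)} (h : Sm l T) (hST : S ⊆ T) : Sm l S :=
  (Cardinal.mk_le_mk_of_subset hST).trans h

theorem Sm.iUnion {l : ℕ} {ι : Type} (hι : #ι ≤ #(K l)) {S : ι → Set (Zc l)}
    (hS : ∀ i, Sm l (S i)) : Sm l (⋃ i, S i) := by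
  refine (Cardinal.mk_iUnion_le_sum_mk).trans ?_
  refine (Cardinal.sum_le_sum _ (fun _ => #(K l)) hS).trans ?_
  rw [Cardinal.sum_const']
  exact (mul_le_mul' hι le_rfl).trans (Cardinal.mul_eq_self (K_inf l)).le

theorem Sm.empty (l : ℕ) : Sm l ∅ := by
  simp [Sm]

theorem Sm.finite {l : ℕ} {S : Set (Zc l)} (h : S.Finite) : Sm l S :=
  (Cardinal.lt_aleph0_iff_set_finite.2 h).le.trans (K_inf l)

theorem Sm.union {l : ℕ} {S T : Set (Zc l)} (h : Sm l S) (h' : Sm l T) : Sm l (S ∪ T) := by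
  refine (Cardinal.mk_union_le S T).trans ?_
  exact (add_le_add h h').trans (Cardinal.add_eq_self (K_inf l)).le

theorem not_Sm_univ (l : ℕ) : ¬ Sm l Set.univ := by
  intro h
  have : #(Zc l) ≤ #(K l) := by
    have := h
    rwa [Sm, Cardinal.mk_univ] at this
  exact absurd (K_lt_Zc l) (not_lt.2 this)

/-- the point set of the factor space -/
abbrev D : Type := Σ l, Zc l

/-- points in columns below `i` -/
def CL (i : ℕ) : Type := {d : D // d.1 < i}

theorem mk_CL_succ (i : ℕ) : #(CL (i + 1)) ≤ #(Zc i) := by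
  let F : CL (i + 1) → Σ j : Fin (i + 1), Zc j := fun d => ⟨⟨d.1.1, d.2⟩, d.1.2⟩
  have hF : Function.Injective F := by
    rintro ⟨⟨a, x⟩, ha⟩ ⟨⟨b, y⟩, hb⟩ h
    simp only [F, Sigma.mk.injEq, Fin.mk.injEq] at h
    obtain ⟨h1, h2⟩ := h
    change a = b at h1
    subst h1
    have h3 := eq_of_heq h2
    change x = y at h3
    subst h3
    rfl
  refine (Cardinal.mk_le_of_injective hF).trans ?_
  rw [Cardinal.mk_sigma]
  refine (Cardinal.sum_le_sum _ (fun _ => #(Zc i)) ?_).trans ?_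
  · intro j
    exact Zc_mono (Nat.lt_succ_iff.1 j.2)
  · rw [Cardinal.sum_const']
    have h1 : #(Fin (i + 1)) ≤ #(Zc i) := by
      rw [Cardinal.mk_fin]
      exact Cardinal.natCast_lt_aleph0.le.trans (Zc_inf i)
    exact (mul_le_mul' h1 le_rfl).trans (Cardinal.mul_eq_self (Zc_inf i)).le

theorem mk_set_CL (i : ℕ) : #(Set (CL i)) ≤ #(K i) := by
  rw [Cardinal.mk_set]
  cases i with
  | zero =>
    have : IsEmpty (CL 0) := ⟨fun d => absurd d.2 (Nat.not_lt_zero _)⟩
    rw [Cardinal.mk_eq_zero (CL 0), Cardinal.power_zero]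
    exact Cardinal.one_le_aleph0.trans (K_inf 0)
  | succ i =>
    rw [mk_K_succ]
    exact Cardinal.power_le_power_left two_ne_zero (mk_CL_succ i)

theorem mk_Prop_le (i : ℕ) : #Prop ≤ #(K i) := by
  have : #Prop = 2 := Cardinal.mk_Prop
  rw [this]
  have h2 : (2 : Cardinal) ≤ ℵ₀ := (Cardinal.ofNat_lt_aleph0 (n := 2)).le
  exact h2.trans (K_inf i)

theorem mk_Nat_le (i : ℕ) : #ℕ ≤ #(K i) := by
  simpa using K_inf i

/-- sequences of small sets -/
def P : Type := {f : (l : ℕ) → Set (Zc l) // ∀ l, Sm l (f l)}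

/-- the filter `FF i t` on `P` -/
def FF (i : ℕ) (t : P) : Filter P where
  sets := {S | ∃ η : P, ∀ g : P, (∀ l < i, g.1 l = t.1 l) → (∀ l, i ≤ l → η.1 l ⊆ g.1 l) → g ∈ S}
  univ_sets := ⟨⟨fun _ => ∅, fun l => Sm.empty l⟩, fun _ _ _ => trivial⟩
  sets_of_superset := by
    rintro S T ⟨η, h⟩ hST
    exact ⟨η, fun g h1 h2 => hST (h g h1 h2)⟩
  inter_sets := by
    rintro S T ⟨η, h⟩ ⟨η', h'⟩
    refine ⟨⟨fun l => η.1 l ∪ η'.1 l, fun l => (η.2 l).union (η'.2 l)⟩, fun g h1 h2 => ?_⟩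
    exact ⟨h g h1 fun l hl => subset_union_left.trans (h2 l hl),
      h' g h1 fun l hl => subset_union_right.trans (h2 l hl)⟩

theorem mem_FF {i : ℕ} {t : P} {S : Set P} : S ∈ FF i t ↔
    ∃ η : P, ∀ g : P, (∀ l < i, g.1 l = t.1 l) → (∀ l, i ≤ l → η.1 l ⊆ g.1 l) → g ∈ S := Iff.rfl

theorem FF_ev {i : ℕ} {t : P} {p : P → Prop} : (∀ᶠ g in FF i t, p g) ↔
    ∃ η : P, ∀ g : P, (∀ l < i, g.1 l = t.1 l) → (∀ l, i ≤ l → η.1 l ⊆ g.1 l) → p g := Iff.rfl

open Classical in
instance FF_neBot (i : ℕ) (t : P) : (FF i t).NeBot := by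
  refine ⟨fun h => ?_⟩
  have : (∅ : Set P) ∈ FF i t := by rw [h]; exact Filter.mem_bot
  obtain ⟨η, hη⟩ := this
  refine hη ⟨fun l => if l < i then t.1 l else η.1 l, fun l => ?_⟩ ?_ ?_
  · by_cases h : l < i
    · simp only [h, if_true]; exact t.2 l
    · simp only [h, if_false]; exact η.2 l
  · intro l hl
    simp [hl]
  · intro l hl
    simp [not_lt.2 hl]

/-- pigeonhole -/
theorem FF_pigeon {i : ℕ} {t : P} {p : P → Prop} {Y : Type} (hY : #Y ≤ #(K i)) (c : P → Y)
    (hp : ∃ᶠ g in FF i t, p g) : ∃ y, ∃ᶠ g in FF i t, p g ∧ c g = y := by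
  by_contra hcon
  rw [not_exists] at hcon
  have h1 : ∀ y, ∃ η : P, ∀ g : P, (∀ l < i, g.1 l = t.1 l) → (∀ l, i ≤ l → η.1 l ⊆ g.1 l) →
      ¬ (p g ∧ c g = y) := by
    intro y
    have := hcon y
    rw [Filter.not_frequently] at this
    exact this
  choose η hη using h1
  classical
  apply hp
  refine ⟨⟨fun l => if i ≤ l then ⋃ y, (η y).1 l else ∅, fun l => ?_⟩, ?_⟩
  · by_cases h : i ≤ l
    · simp only [h, if_true]
      exact Sm.iUnion (hY.trans (K_mono h)) fun y => (η y).2 l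
    · simp only [h, if_false]
      exact Sm.empty l
  · intro g h1 h2 hpg
    refine hη (c g) g h1 (fun l hl => ?_) ⟨hpg, rfl⟩
    have := h2 l hl
    simp only [hl, if_true] at this
    exact (subset_iUnion (fun y => (η y).1 l) (c g)).trans this

/-- one more column in the stem -/
theorem FF_step {i : ℕ} {t : P} {p : P → Prop} (hp : ∃ᶠ g in FF i t, p g) :
    ∃ t' : P, ∃ᶠ g in FF (i + 1) t', p g := by
  classical
  by_contra hcon
  rw [not_exists] at hcon
  have h1 : ∀ v : Set (Zc i), ∃ η : P, ∀ hv : Sm i v, ∀ g : P,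
      (∀ l < i + 1, g.1 l = (Function.update t.1 i v) l) → (∀ l, i + 1 ≤ l → η.1 l ⊆ g.1 l) →
      ¬ p g := by
    intro v
    by_cases hv : Sm i v
    · have hsm : ∀ l, Sm l (Function.update t.1 i v l) := by
        intro l
        by_cases hl : l = i
        · subst hl; simpa using hv
        · rw [Function.update_of_ne hl]; exact t.2 l
      have := hcon ⟨Function.update t.1 i v, hsm⟩
      rw [Filter.not_frequently] at this
      obtain ⟨η, hη⟩ := this
      exact ⟨η, fun _ => hη⟩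
    · exact ⟨t, fun h => absurd h hv⟩
  choose η hη using h1
  apply hp
  have hcard : #(Set (Zc i)) ≤ #(K (i + 1)) := by
    rw [Cardinal.mk_set, mk_K_succ]
  refine ⟨⟨fun l => if i + 1 ≤ l then ⋃ y, (η y).1 l else ∅, fun l => ?_⟩, ?_⟩
  · by_cases h : i + 1 ≤ l
    · simp only [h, if_true]
      exact Sm.iUnion (hcard.trans (K_mono h)) fun y => (η y).2 l
    · simp only [h, if_false]
      exact Sm.empty l
  · intro g h1 h2
    refine hη (g.1 i) (g.2 i) g (fun l hl => ?_) (fun l hl => ?_)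
    · by_cases hli : l = i
      · subst hli; simp
      · rw [Function.update_of_ne hli]
        exact h1 l (by omega)
    · have := h2 l (by omega)
      simp only [hl, if_true] at this
      exact (subset_iUnion (fun y => (η y).1 l) (g.1 i)).trans this

theorem FF_stem {t : P} {p : P → Prop} (hp : ∃ᶠ g in FF 0 t, p g) (i : ℕ) :
    ∃ t' : P, ∃ᶠ g in FF i t', p g := by
  induction i with
  | zero => exact ⟨t, hp⟩
  | succ i ih =>
    obtain ⟨t', ht'⟩ := ih
    exact FF_step ht'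

theorem FF_mem {i l : ℕ} {t : P} (hl : i ≤ l) (z : Zc l) : ∀ᶠ g in FF i t, z ∈ g.1 l := by
  classical
  refine ⟨⟨Function.update (fun _ => ∅) l {z}, fun m => ?_⟩, ?_⟩
  · by_cases hm : m = l
    · subst hm; simpa using Sm.finite (Set.finite_singleton z)
    · rw [Function.update_of_ne hm]; exact Sm.empty m
  · intro g _ h2
    have := h2 l hl
    simp only [Function.update_self] at this
    exact this rfl

end Pool.Agent.Helper70.RS
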