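import Pool.Agent.Helper70.RS1

open Set Filter Cardinal

namespace Pool.Agent.Helper70.RS

/-- pigeonhole property -/
def PH {β : Type} (l : Filter β) (i : ℕ) : Prop :=
  ∀ (Y : Type), #Y ≤ #(K i) → ∀ (c : β → Y) (p : β → Prop), (∃ᶠ x in l, p x) →
    ∃ y, ∃ᶠ x in l, p x ∧ c x = y

theorem PH_FF (i : ℕ) (t : P) : PH (FF i t) i := fun _ hY c _ hp => FF_pigeon hY c hp

/-- co-small filter on a column -/
def CS (i : ℕ) : Filter (Zc i) where
  sets := {S | Sm i Sᶜ}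
  univ_sets := by
    show Sm i univᶜ
    rw [compl_univ]; exact Sm.empty i
  sets_of_superset := by
    intro S T h hST
    exact Sm.mono h (compl_subset_compl.2 hST)
  inter_sets := by
    intro S T h h'
    show Sm i (S ∩ T)ᶜ
    rw [compl_inter]; exact Sm.union h h'

theorem CS_ev {i : ℕ} {p : Zc i → Prop} : (∀ᶠ z in CS i, p z) ↔ Sm i {z | ¬ p z} := Iff.rfl

theorem CS_neBot (i : ℕ) : (CS i).NeBot := by
  refine ⟨fun h => ?_⟩
  have : (∅ : Set (Zc i)) ∈ CS i := by rw [h]; exact Filter.mem_bot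
  have h2 : Sm i (∅ : Set (Zc i))ᶜ := this
  rw [compl_empty] at h2
  exact not_Sm_univ i h2

theorem PH_CS (i : ℕ) : PH (CS i) i := by
  intro Y hY c p hp
  by_contra hcon
  rw [not_exists] at hcon
  apply hp
  have : {z | ¬ ¬ p z} ⊆ ⋃ y, {z | ¬ ¬ (p z ∧ c z = y)} := by
    intro z hz
    rw [mem_iUnion]
    refine ⟨c z, fun h => hz fun hp => h ⟨hp, rfl⟩⟩
  exact Sm.mono (Sm.iUnion hY fun y => not_frequently.1 (hcon y)) this

theorem root {α β : Type} {l : Filter β} {i : ℕ} (hl : PH l i) (R : β → Finset α)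
    {p : β → Prop} (hp : ∃ᶠ x in l, p x) :
    ∃ (ρ : Finset α) (q : β → Prop), (∀ x, q x → p x ∧ ρ ⊆ R x) ∧ (∃ᶠ x in l, q x) ∧
      ∀ a ∉ ρ, ∀ᶠ x in l, ¬ (q x ∧ a ∈ R x) := by
  classical
  obtain ⟨n, hn⟩ := hl ℕ (mk_Nat_le i) (fun x => (R x).card) p hp
  have key : ∀ k (ρ : Finset α), n ≤ ρ.card + k →
      (∃ᶠ x in l, (p x ∧ (R x).card = n) ∧ ρ ⊆ R x) →
      ∃ (ρ : Finset α) (q : β → Prop), (∀ x, q x → p x ∧ ρ ⊆ R x) ∧ (∃ᶠ x in l, q x) ∧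
        ∀ a ∉ ρ, ∀ᶠ x in l, ¬ (q x ∧ a ∈ R x) := by
    intro k
    induction k with
    | zero =>
      intro ρ hρ hfr
      refine ⟨ρ, _, fun x hx => ⟨hx.1.1, hx.2⟩, hfr, fun a ha => Eventually.of_forall ?_⟩
      rintro x ⟨⟨⟨_, h1⟩, h2⟩, h3⟩
      have h4 : insert a ρ ⊆ R x := Finset.insert_subset h3 h2
      have h5 := Finset.card_le_card h4
      rw [Finset.card_insert_of_notMem ha] at h5
      omega
    | succ k ih =>
      intro ρ hρ hfr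
      by_cases h : ∃ a, a ∉ ρ ∧ ∃ᶠ x in l, ((p x ∧ (R x).card = n) ∧ ρ ⊆ R x) ∧ a ∈ R x
      · obtain ⟨a, ha, hfa⟩ := h
        refine ih (insert a ρ) ?_ (hfa.mono ?_)
        · rw [Finset.card_insert_of_notMem ha]; omega
        · rintro x ⟨⟨h1, h2⟩, h3⟩
          exact ⟨h1, Finset.insert_subset h3 h2⟩
      · refine ⟨ρ, _, fun x hx => ⟨hx.1.1, hx.2⟩, hfr, fun a ha => ?_⟩
        exact not_frequently.1 fun h' => h ⟨a, ha, h'⟩
  exact key n ∅ (by simp) (hn.mono fun x hx => ⟨hx, by simp⟩)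

theorem pattern {α β Y : Type} {l : Filter β} {i : ℕ} (hl : PH l i) (hY : #Y ≤ #(K i))
    (c : α → β → Y) (ρ : Finset α) {p : β → Prop} (hp : ∃ᶠ x in l, p x) :
    ∃ (pat : α → Y), ∃ᶠ x in l, p x ∧ ∀ a ∈ ρ, c a x = pat a := by
  classical
  induction ρ using Finset.induction_on with
  | empty =>
    obtain ⟨x0, _⟩ := hp.exists
    exact ⟨fun a => c a x0, hp.mono fun x hx => ⟨hx, by simp⟩⟩
  | insert a ρ ha ih =>
    obtain ⟨pat, hpat⟩ := ih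
    obtain ⟨y, hy⟩ := hl Y hY (c a) _ hpat
    refine ⟨Function.update pat a y, hy.mono ?_⟩
    rintro x ⟨⟨h1, h2⟩, h3⟩
    refine ⟨h1, fun b hb => ?_⟩
    rcases Finset.mem_insert.1 hb with rfl | hb
    · simp [h3]
    · have hba : b ≠ a := fun h => ha (h ▸ hb)
      rw [Function.update_of_ne hba]
      exact h2 b hb

theorem rootpat {α β Y : Type} {l : Filter β} {i : ℕ} (hl : PH l i) (hY : #Y ≤ #(K i))
    (R : β → Finset α) (c : α → β → Y) {p : β → Prop} (hp : ∃ᶠ x in l, p x) :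
    ∃ (ρ : Finset α) (pt : α → Y) (q : β → Prop),
      (∀ x, q x → p x ∧ ρ ⊆ R x ∧ ∀ a ∈ ρ, c a x = pt a) ∧ (∃ᶠ x in l, q x) ∧
      ∀ a ∉ ρ, ∀ᶠ x in l, ¬ (q x ∧ a ∈ R x) := by
  obtain ⟨ρ, q, h1, h2, h3⟩ := root hl R hp
  obtain ⟨pat, hpat⟩ := pattern hl hY c ρ h2
  refine ⟨ρ, pat, fun x => q x ∧ ∀ a ∈ ρ, c a x = pat a, ?_, hpat, ?_⟩
  · rintro x ⟨hx, hx'⟩
    exact ⟨(h1 x hx).1, (h1 x hx).2, hx'⟩
  · intro a ha
    filter_upwards [h3 a ha] with x hx hx'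
    exact hx ⟨hx'.1.1, hx'.2⟩

theorem avoid {α β : Type} {l : Filter β} {q : β → Prop} {R : β → Finset α} (T : Finset α)
    (h : ∀ a ∈ T, ∀ᶠ x in l, ¬ (q x ∧ a ∈ R x)) :
    ∀ᶠ x in l, q x → ∀ a ∈ T, a ∉ R x := by
  have h1 := (Filter.eventually_all_finset T).2 h
  filter_upwards [h1] with x hx hq a ha hR
  exact hx a ha ⟨hq, hR⟩

theorem mk_Y (i : ℕ) : #(Set (CL i) × Prop) ≤ #(K i) := by
  rw [Cardinal.mk_prod, Cardinal.lift_id, Cardinal.lift_id]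
  exact (mul_le_mul' (mk_set_CL i) (mk_Prop_le i)).trans (Cardinal.mul_eq_self (K_inf i)).le

theorem core {α : Type} (V : α → P → P → Set D) (b : α → P → P → Prop) (B : P → Set D)
    (hB : ∀ f, ∃ n, ∀ l ≥ n, Sm l {z | (⟨l, z⟩ : D) ∉ B f})
    (R : P → P → Finset α) (Q : P → P → Finset D)
    (R' : D → P → P → Finset α) (Q' : D → P → P → Finset D) :
    ∃ (f g f' g' : P) (d : D), d ∈ B f ∧ d.2 ∈ f'.1 d.1 ∧
      ∀ x, x ∈ R f g → x ∈ R' d f' g' →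
        (∀ e ∈ Q f g, e ∉ V x f g → e ∉ V x f' g' ∨ e.2 ∈ g'.1 e.1) ∧
        (∀ e ∈ Q' d f' g', e ∉ V x f' g' → e ∉ V x f g ∨ e.2 ∈ g.1 e.1) ∧
        (b x f g ↔ b x f' g') := by
  classical
  let t0 : P := ⟨fun _ => ∅, fun l => Sm.empty l⟩
  choose n hn using hB
  -- bound the columns of Q f g
  have h1 : ∀ f, ∃ m : ℕ, ∃ᶠ g in FF 0 t0, ((Q f g).sup (fun e => e.1 + 1)) = m := by
    intro f
    obtain ⟨m, hm⟩ := PH_FF 0 t0 ℕ (mk_Nat_le 0) (fun g => (Q f g).sup (fun e => e.1 + 1))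
      (fun _ => True) (Filter.frequently_true_iff_neBot _ |>.2 inferInstance)
    exact ⟨m, hm.mono fun g hg => hg.2⟩
  choose m hm using h1
  obtain ⟨i, hi⟩ := PH_FF 0 t0 ℕ (mk_Nat_le 0) (fun f => max (m f) (n f))
      (fun _ => True) (Filter.frequently_true_iff_neBot _ |>.2 inferInstance)
  obtain ⟨s, hs⟩ := FF_stem hi i
  have h2 : ∀ f, ∃ t : P, ∃ᶠ g in FF i t, ((Q f g).sup (fun e => e.1 + 1)) = m f :=
    fun f => FF_stem (hm f) i
  choose t ht using h2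
  -- roots over g
  have h3 := fun f => rootpat (PH_FF i (t f)) (mk_Y i) (R f)
    (fun x g => (({d | d.1 ∈ V x f g} : Set (CL i)), b x f g)) (ht f)
  choose ρ pt q hq1 hq2 hq3 using h3
  -- roots over f
  obtain ⟨ρ0, pt0, r, hr1, hr2, hr3⟩ := rootpat (PH_FF i s) (mk_Y i) ρ (fun x f => pt f x) hs
  -- the other side: roots over g
  have h4 := fun (ξ : Zc i) (f : P) => root (PH_FF i (t f)) (R' ⟨i, ξ⟩ f) (hq2 f)
  choose τ u hu1 hu2 hu3 using h4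
  -- roots over f
  have h5 := fun (ξ : Zc i) => root (PH_FF i s) (τ ξ)
    (hr2.and_eventually (FF_mem (le_refl i) ξ))
  choose τ1 v hv1 hv2 hv3 using h5
  have hne := CS_neBot i
  obtain ⟨τ2, w, hw1, hw2, hw3⟩ := root (PH_CS i) τ1
    (p := fun _ => True) (Filter.frequently_true_iff_neBot _ |>.2 hne)
  -- choices
  obtain ⟨f, hf, hf'⟩ := (hr2.and_eventually (avoid (τ2 \ ρ0) (fun a ha =>
    hr3 a (Finset.mem_sdiff.1 ha).2))).exists
  have hf2 := hf' hf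
  have hni : n f ≤ i := by
    have := (hr1 f hf).1.2
    omega
  have hmi : m f ≤ i := by
    have := (hr1 f hf).1.2
    omega
  have hBf : ∀ᶠ ξ in CS i, (⟨i, ξ⟩ : D) ∈ B f := CS_ev.2 (hn f i hni)
  obtain ⟨ξ, ⟨hξ, hξB⟩, hξ'⟩ := ((hw2.and_eventually hBf).and_eventually
    (avoid (ρ f \ τ2) (fun a ha => hw3 a (Finset.mem_sdiff.1 ha).2))).exists
  have hξ2 := hξ' hξ
  obtain ⟨f', hf1', hf2'⟩ := ((hv2 ξ).and_eventually
    (avoid (ρ f \ τ1 ξ) (fun a ha => hv3 ξ a (Finset.mem_sdiff.1 ha).2))).exists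
  have hf3' := hf2' hf1'
  obtain ⟨g', hg1', hg2'⟩ := ((hu2 ξ f').and_eventually
    (avoid (ρ f \ τ ξ f') (fun a ha => hu3 ξ f' a (Finset.mem_sdiff.1 ha).2))).exists
  have hg3' := hg2' hg1'
  have hev : ∀ᶠ g in FF i (t f), ∀ e ∈ Q' ⟨i, ξ⟩ f' g', i ≤ e.1 → e.2 ∈ g.1 e.1 := by
    refine (Filter.eventually_all_finset _).2 fun e _ => ?_
    by_cases he : i ≤ e.1
    · filter_upwards [FF_mem (t := t f) he e.2] with g hg _
      exact hg
    · exact Eventually.of_forall fun g h => absurd h he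
  obtain ⟨g, ⟨hg1, hg2⟩, hg3⟩ := (((hq2 f).and_eventually
    (avoid (R' ⟨i, ξ⟩ f' g' \ ρ f) (fun a ha => hq3 f a (Finset.mem_sdiff.1 ha).2))).and_eventually
      hev).exists
  have hg4 := hg2 hg1
  have hr1f' := (hv1 ξ f' hf1').1.1
  refine ⟨f, g, f', g', ⟨i, ξ⟩, hξB, (hv1 ξ f' hf1').1.2, ?_⟩
  intro x hx hx'
  -- x is in ρ f
  have e1 : x ∈ ρ f := by
    by_contra hcon
    exact hg4 x (Finset.mem_sdiff.2 ⟨hx', hcon⟩) hx
  have e2 : x ∈ τ ξ f' := by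
    by_contra hcon
    exact hg3' x (Finset.mem_sdiff.2 ⟨e1, hcon⟩) hx'
  have e3 : x ∈ τ1 ξ := by
    by_contra hcon
    exact hf3' x (Finset.mem_sdiff.2 ⟨e1, hcon⟩) e2
  have e4 : x ∈ τ2 := by
    by_contra hcon
    exact hξ2 x (Finset.mem_sdiff.2 ⟨e1, hcon⟩) e3
  have e5 : x ∈ ρ0 := by
    by_contra hcon
    exact hf2 x (Finset.mem_sdiff.2 ⟨e4, hcon⟩) e1
  -- patterns agree
  have p1 := (hq1 f g hg1).2.2 x e1
  have p2 := (hr1 f hf).2.2 x e5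
  have p3 := (hr1 f' hr1f').2.2 x e5
  have e6 : x ∈ ρ f' := (hr1 f' hr1f').2.1 e5
  have p4 := (hq1 f' g' (hu1 ξ f' g' hg1').1).2.2 x e6
  have p5 : ((({d | d.1 ∈ V x f g} : Set (CL i)), b x f g) : Set (CL i) × Prop) =
      (({d | d.1 ∈ V x f' g'} : Set (CL i)), b x f' g') := by
    rw [p1, p4, p2, p3]
  have p6 : ({d | d.1 ∈ V x f g} : Set (CL i)) = {d | d.1 ∈ V x f' g'} := congrArg Prod.fst p5
  have p7 : b x f g = b x f' g' := congrArg Prod.snd p5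
  have agree : ∀ e : D, e.1 < i → (e ∈ V x f g ↔ e ∈ V x f' g') := by
    intro e he
    have : (⟨e, he⟩ : CL i) ∈ ({d | d.1 ∈ V x f g} : Set (CL i)) ↔
        (⟨e, he⟩ : CL i) ∈ ({d | d.1 ∈ V x f' g'} : Set (CL i)) := by rw [p6]
    exact this
  refine ⟨fun e he hev => ?_, fun e he hev => ?_, by rw [p7]⟩
  · left
    have h6 : e.1 < i := by
      have h7 := (hq1 f g hg1).1
      have h8 : e.1 + 1 ≤ (Q f g).sup (fun e => e.1 + 1) :=
        Finset.le_sup (f := fun e : D => e.1 + 1) he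
      omega
    exact fun h => hev ((agree e h6).2 h)
  · by_cases h6 : e.1 < i
    · left
      exact fun h => hev ((agree e h6).1 h)
    · right
      exact hg3 e he (not_lt.1 h6)

end Pool.Agent.Helper70.RS
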