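import Mathlib

open Set Filter

namespace Pool.Agent.Helper70.RS

/-- the space with isolated points `I` and non-isolated points `T`, with trace filters `n` -/
def Sp {T I : Type} (_n : T → Filter I) : Type := T ⊕ I

section
variable {T I : Type} {n : T → Filter I}

/-- the non-isolated point -/
def Sp.a (n : T → Filter I) (t : T) : Sp n := Sum.inl t

/-- the isolated point -/
def Sp.b (n : T → Filter I) (p : I) : Sp n := Sum.inr p

theorem Sp.cases (x : Sp n) : (∃ t, x = Sp.a n t) ∨ ∃ p, x = Sp.b n p := by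
  rcases x with t | p
  · exact Or.inl ⟨t, rfl⟩
  · exact Or.inr ⟨p, rfl⟩

theorem Sp.a_inj {t t' : T} : Sp.a n t = Sp.a n t' ↔ t = t' := by
  unfold Sp.a; exact Sum.inl.injEq t t' ▸ Iff.rfl

theorem Sp.b_inj {t t' : I} : Sp.b n t = Sp.b n t' ↔ t = t' := by
  unfold Sp.b; exact Sum.inr.injEq t t' ▸ Iff.rfl

theorem Sp.a_ne_b {t : T} {p : I} : Sp.a n t ≠ Sp.b n p := by
  unfold Sp.a Sp.b; exact Sum.inl_ne_inr

theorem Sp.b_ne_a {t : T} {p : I} : Sp.b n p ≠ Sp.a n t := Sp.a_ne_b.symm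

instance : TopologicalSpace (Sp n) where
  IsOpen U := ∀ t, Sp.a n t ∈ U → {p | Sp.b n p ∈ U} ∈ n t
  isOpen_univ := fun t _ => by simp
  isOpen_inter := fun U V hU hV t ht => by
    filter_upwards [hU t ht.1, hV t ht.2] with p h1 h2
    exact ⟨h1, h2⟩
  isOpen_sUnion := fun s hs t ht => by
    obtain ⟨U, hU, htU⟩ := ht
    filter_upwards [hs U hU t htU] with p h1
    exact ⟨U, hU, h1⟩

theorem Sp.isOpen_iff {U : Set (Sp n)} : IsOpen U ↔ ∀ t, Sp.a n t ∈ U → {p | Sp.b n p ∈ U} ∈ n t :=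
  Iff.rfl

theorem Sp.isClosed_iff {C : Set (Sp n)} :
    IsClosed C ↔ ∀ t, Sp.a n t ∉ C → {p | Sp.b n p ∉ C} ∈ n t := by
  rw [← isOpen_compl_iff, Sp.isOpen_iff]; rfl

/-- basic box -/
def bx (x : Sp n) (F : Set I) : Set (Sp n) :=
  {z | z = x ∨ ((∃ t, x = Sp.a n t) ∧ ∃ p ∈ F, z = Sp.b n p)}

theorem bx_self (x : Sp n) (F : Set I) : x ∈ bx x F := Or.inl rfl

theorem bx_mono (x : Sp n) {F F' : Set I} (h : F ⊆ F') : bx x F ⊆ bx x F' := by
  rintro z (hz | ⟨h1, p, hp, rfl⟩)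
  · exact Or.inl hz
  · exact Or.inr ⟨h1, p, h hp, rfl⟩

theorem mem_bx_a {t : T} {F : Set I} {z : Sp n} :
    z ∈ bx (Sp.a n t) F ↔ z = Sp.a n t ∨ ∃ p ∈ F, z = Sp.b n p := by
  constructor
  · rintro (h | ⟨_, h⟩)
    · exact Or.inl h
    · exact Or.inr h
  · rintro (h | h)
    · exact Or.inl h
    · exact Or.inr ⟨⟨t, rfl⟩, h⟩

theorem mem_bx_b {p : I} {F : Set I} {z : Sp n} :
    z ∈ bx (Sp.b n p) F ↔ z = Sp.b n p := by
  constructor
  · rintro (h | ⟨⟨t, h⟩, _⟩)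
    · exact h
    · exact absurd h Sp.b_ne_a
  · exact Or.inl

theorem bx_open {x : Sp n} {F : Set I} (h : ∀ t, x = Sp.a n t → F ∈ n t) : IsOpen (bx x F) := by
  rw [Sp.isOpen_iff]
  intro t ht
  rcases ht with ht | ⟨_, p, _, h2⟩
  · have := h t ht.symm
    filter_upwards [this] with p hp
    exact Or.inr ⟨⟨t, ht.symm⟩, p, hp, rfl⟩
  · exact absurd h2 Sp.a_ne_b

/-- every neighbourhood contains a box -/
theorem exists_bx {x : Sp n} {U : Set (Sp n)} (hU : IsOpen U) (hx : x ∈ U) :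
    ∃ F : Set I, (∀ t, x = Sp.a n t → F ∈ n t) ∧ bx x F ⊆ U := by
  refine ⟨{p | Sp.b n p ∈ U}, fun t ht => hU t (ht ▸ hx), ?_⟩
  rintro z (rfl | ⟨_, p, hp, rfl⟩)
  · exact hx
  · exact hp

theorem Sp.t1 (h1 : ∀ t p, ({p}ᶜ : Set I) ∈ n t) : T1Space (Sp n) := by
  refine ⟨fun x => ?_⟩
  rw [Sp.isClosed_iff]
  intro t ht
  rcases Sp.cases x with ⟨t', rfl⟩ | ⟨p, rfl⟩
  · have : {p | Sp.b n p ∉ ({Sp.a n t'} : Set (Sp n))} = univ := by
      ext p; exact iff_of_true Sp.b_ne_a trivial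
    rw [this]; exact univ_mem
  · filter_upwards [h1 t p] with q hq hq'
    exact hq (Sp.b_inj.1 hq')

theorem Sp.normal (h2 : ∀ A : Set T, ∃ S : Set I, (∀ t ∈ A, S ∈ n t) ∧ ∀ t ∉ A, Sᶜ ∈ n t) :
    NormalSpace (Sp n) := by
  refine ⟨fun C1 C2 hC1 hC2 hd => ?_⟩
  rw [Sp.isClosed_iff] at hC1 hC2
  obtain ⟨S, hS1, hS2⟩ := h2 {t | Sp.a n t ∈ C1}
  refine ⟨C1 ∪ Sp.b n '' {p | p ∈ S ∧ Sp.b n p ∉ C2},
    C2 ∪ Sp.b n '' {p | p ∉ S ∧ Sp.b n p ∉ C1}, ?_, ?_,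
    subset_union_left, subset_union_left, ?_⟩
  · rw [Sp.isOpen_iff]
    intro t ht
    have ht1 : Sp.a n t ∈ C1 := by
      rcases ht with ht | ⟨p, _, hp⟩
      · exact ht
      · exact absurd hp Sp.b_ne_a
    have ht2 : Sp.a n t ∉ C2 := fun h => (disjoint_left.1 hd) ht1 h
    filter_upwards [hS1 t ht1, hC2 t ht2] with p hp1 hp2
    exact Or.inr ⟨p, ⟨hp1, hp2⟩, rfl⟩
  · rw [Sp.isOpen_iff]
    intro t ht
    have ht1 : Sp.a n t ∈ C2 := by
      rcases ht with ht | ⟨p, _, hp⟩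
      · exact ht
      · exact absurd hp Sp.b_ne_a
    have ht2 : Sp.a n t ∉ C1 := fun h => (disjoint_left.1 hd) h ht1
    filter_upwards [hS2 t ht2, hC1 t ht2] with p hp1 hp2
    exact Or.inr ⟨p, ⟨hp1, hp2⟩, rfl⟩
  · rw [disjoint_left]
    rintro z (hz | ⟨p, ⟨hp1, hp2⟩, rfl⟩) (hz' | ⟨q, ⟨hq1, hq2⟩, hq⟩)
    · exact (disjoint_left.1 hd) hz hz'
    · exact hq2 (hq ▸ hz)
    · exact hp2 hz'
    · have := Sp.b_inj.1 hq
      subst this
      exact hq1 hp1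

theorem Sp.t35 (h1 : ∀ t p, ({p}ᶜ : Set I) ∈ n t)
    (h2 : ∀ A : Set T, ∃ S : Set I, (∀ t ∈ A, S ∈ n t) ∧ ∀ t ∉ A, Sᶜ ∈ n t) :
    T35Space (Sp n) := by
  have := Sp.t1 h1
  have := Sp.normal h2
  have : T4Space (Sp n) := ⟨⟩
  infer_instance

end

theorem Sp.paracompact {I : Type} (n : Unit → Filter I) : ParacompactSpace (Sp n) := by
  classical
  refine ⟨fun α s ho hu => ?_⟩
  obtain ⟨a0, ha0⟩ : ∃ a, Sp.a n () ∈ s a := by
    have : Sp.a n () ∈ ⋃ a, s a := by rw [hu]; trivial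
    exact mem_iUnion.1 this
  have hcov : ∀ p, ∃ a, Sp.b n p ∈ s a := by
    intro p
    have : Sp.b n p ∈ ⋃ a, s a := by rw [hu]; trivial
    exact mem_iUnion.1 this
  refine ⟨Option I, fun o => match o with
    | none => s a0
    | some p => {z | z = Sp.b n p ∧ z ∉ s a0}, ?_, ?_, ?_, ?_⟩
  · intro o
    cases o with
    | none => exact ho a0
    | some p =>
      rw [Sp.isOpen_iff]
      intro t ht
      exact absurd ht.1 Sp.a_ne_b
  · rw [eq_univ_iff_forall]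
    intro z
    by_cases hz : z ∈ s a0
    · exact mem_iUnion.2 ⟨none, hz⟩
    · rcases Sp.cases z with ⟨t, rfl⟩ | ⟨p, rfl⟩
      · exact absurd ha0 hz
      · exact mem_iUnion.2 ⟨some p, rfl, hz⟩
  · intro z
    rcases Sp.cases z with ⟨t, rfl⟩ | ⟨p, rfl⟩
    · refine ⟨s a0, (ho a0).mem_nhds ha0, ?_⟩
      refine (Set.finite_singleton (none : Option I)).subset ?_
      rintro (_ | p) hp
      · rfl
      · obtain ⟨z, hz1, hz2⟩ := hp
        exact absurd hz2 hz1.2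
    · refine ⟨{Sp.b n p}, ?_, ?_⟩
      · have : IsOpen ({Sp.b n p} : Set (Sp n)) := by
          rw [Sp.isOpen_iff]
          intro t ht
          exact absurd ht Sp.a_ne_b
        exact this.mem_nhds rfl
      · refine ((Set.finite_singleton (some p)).insert (none : Option I)).subset ?_
        rintro (_ | q) hq
        · exact Or.inl rfl
        · obtain ⟨z, hz1, hz2⟩ := hq
          have h3 : z = Sp.b n p := hz2
          rw [hz1.1, Sp.b_inj] at h3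
          exact Or.inr (by simp [h3])
  · intro o
    cases o with
    | none => exact ⟨a0, Subset.rfl⟩
    | some p =>
      obtain ⟨a, ha⟩ := hcov p
      refine ⟨a, ?_⟩
      rintro z ⟨rfl, _⟩
      exact ha

section
variable {T I T' I' : Type} {n : T → Filter I} {m : T' → Filter I'}

theorem exists_box {O : Set (Sp n × Sp m)} (hO : IsOpen O) {h : Sp n × Sp m} (hh : h ∈ O) :
    ∃ (F : Set I) (S : Set I'), (∀ t, h.1 = Sp.a n t → F ∈ n t) ∧
      (∀ t, h.2 = Sp.a m t → S ∈ m t) ∧ bx h.1 F ×ˢ bx h.2 S ⊆ O := by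
  obtain ⟨U, V, hU, hV, h1, h2, h3⟩ := isOpen_prod_iff.1 hO h.1 h.2 hh
  obtain ⟨F, hF, hFU⟩ := exists_bx hU h1
  obtain ⟨S, hS, hSV⟩ := exists_bx hV h2
  exact ⟨F, S, hF, hS, (Set.prod_mono hFU hSV).trans h3⟩

theorem open_of_box {O : Set (Sp n × Sp m)}
    (hO : ∀ h ∈ O, ∃ (F : Set I) (S : Set I'), (∀ t, h.1 = Sp.a n t → F ∈ n t) ∧
      (∀ t, h.2 = Sp.a m t → S ∈ m t) ∧ bx h.1 F ×ˢ bx h.2 S ⊆ O) : IsOpen O := by
  rw [isOpen_prod_iff]
  intro x y hxy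
  obtain ⟨F, S, hF, hS, h3⟩ := hO (x, y) hxy
  exact ⟨bx x F, bx y S, bx_open hF, bx_open hS, bx_self _ _, bx_self _ _, h3⟩

end

/-- the quotient map -/
def qm {T1 T2 I : Type} (n : T1 × T2 → Filter I) (m : T1 → Filter I) : Sp n → Sp m :=
  fun x => Sum.elim (fun t => Sp.a m t.1) (fun p => Sp.b m p) x

theorem qm_a {T1 T2 I : Type} (n : T1 × T2 → Filter I) (m : T1 → Filter I) (t : T1 × T2) :
    qm n m (Sp.a n t) = Sp.a m t.1 := rfl

theorem qm_b {T1 T2 I : Type} (n : T1 × T2 → Filter I) (m : T1 → Filter I) (p : I) :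
    qm n m (Sp.b n p) = Sp.b m p := rfl

theorem qm_cont {T1 T2 I : Type} {n : T1 × T2 → Filter I} {m : T1 → Filter I}
    (hm : ∀ f S, S ∈ m f ↔ ∀ g, S ∈ n (f, g)) : Continuous (qm n m) := by
  rw [continuous_def]
  intro U hU
  rw [Sp.isOpen_iff] at hU ⊢
  rintro ⟨f, g⟩ ht
  exact (hm f _).1 (hU f ht) g

theorem qm_closed {T1 T2 I : Type} {n : T1 × T2 → Filter I} {m : T1 → Filter I}
    (hm : ∀ f S, S ∈ m f ↔ ∀ g, S ∈ n (f, g)) : IsClosedMap (qm n m) := by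
  intro C hC
  rw [Sp.isClosed_iff] at hC ⊢
  intro f hf
  refine (hm f _).2 fun g => ?_
  have h1 : Sp.a n (f, g) ∉ C := fun h => hf ⟨_, h, rfl⟩
  filter_upwards [hC _ h1] with p hp hp'
  obtain ⟨z, hz, hz'⟩ := hp'
  rcases Sp.cases z with ⟨t, rfl⟩ | ⟨q, rfl⟩
  · exact Sp.a_ne_b hz'
  · rw [qm_b, Sp.b_inj] at hz'
    subst hz'
    exact hp hz

theorem qm_surj {T1 T2 I : Type} [Nonempty T2] {n : T1 × T2 → Filter I} {m : T1 → Filter I} :
    Function.Surjective (qm n m) := by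
  intro z
  rcases Sp.cases z with ⟨t, rfl⟩ | ⟨q, rfl⟩
  · exact ⟨Sp.a n (t, Classical.arbitrary T2), rfl⟩
  · exact ⟨Sp.b n q, rfl⟩

end Pool.Agent.Helper70.RS
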