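import Pool.Agent.Helper70.RS2
import Pool.Agent.Helper70.RS3

open Set Filter Cardinal

namespace Pool.Agent.Helper70.RS

/-- membership in the filter -/
def InF (F : Set D) : Prop := ∃ n, ∀ l ≥ n, Sm l {z | (⟨l, z⟩ : D) ∉ F}

/-- the filter of sets with eventually small complements in the columns -/
def fF : Filter D where
  sets := {F | InF F}
  univ_sets := ⟨0, fun l _ => by simpa using Sm.empty l⟩
  sets_of_superset := by
    rintro S T ⟨n, h⟩ hST
    exact ⟨n, fun l hl => Sm.mono (h l hl) fun z hz hz' => hz (hST hz')⟩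
  inter_sets := by
    rintro S T ⟨n, h⟩ ⟨n', h'⟩
    refine ⟨max n n', fun l hl => ?_⟩
    have h1 := h l ((le_max_left _ _).trans hl)
    have h2 := h' l ((le_max_right _ _).trans hl)
    refine Sm.mono (h1.union h2) ?_
    intro z hz
    by_cases hz' : (⟨l, z⟩ : D) ∈ S
    · exact Or.inr fun h3 => hz ⟨hz', h3⟩
    · exact Or.inl hz'

theorem mem_fF {F : Set D} : F ∈ fF ↔ ∃ n, ∀ l ≥ n, Sm l {z | (⟨l, z⟩ : D) ∉ F} := Iff.rfl

/-- the sets `G_g` -/
def Gb (g : P) : Set D := {d | d.2 ∉ g.1 d.1}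

theorem Gb_mem (g : P) : Gb g ∈ fF := by
  refine ⟨0, fun l _ => ?_⟩
  refine Sm.mono (g.2 l) ?_
  intro z hz
  by_contra hcon
  exact hz hcon

theorem compl_mem (d : D) : ({d}ᶜ : Set D) ∈ fF := by
  refine ⟨0, fun l _ => ?_⟩
  have : {z | (⟨l, z⟩ : D) ∉ ({d}ᶜ : Set D)} ⊆ (fun z => (⟨l, z⟩ : D)) ⁻¹' {d} := by
    intro z hz
    by_contra hcon
    exact hz hcon
  refine Sm.mono (Sm.finite ?_) this
  refine (Set.finite_singleton d).preimage ?_
  intro x _ y _ h
  have := (Sigma.mk.inj h).2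
  exact eq_of_heq this

theorem large_mem (k : ℕ) : {d : D | k < d.1} ∈ fF := by
  refine ⟨k + 1, fun l hl => ?_⟩
  have : {z : Zc l | (⟨l, z⟩ : D) ∉ {d : D | k < d.1}} = ∅ := by
    ext z
    constructor
    · intro h
      exact absurd (show k < l by omega) h
    · intro h; exact absurd h (by simp)
  rw [this]
  exact Sm.empty l

/-- tasks -/
def Task : Type := P × P → {F : Set D // F ∈ fF}

/-- coordinates -/
abbrev Co : Type := Task ⊕ Set (P × P)

/-- isolated points of the second space -/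
abbrev Iso : Type := (Task → Set D) × Finset (Set (P × P))

/-- basic trace neighbourhoods -/
def Nb (y : P × P) (R : Finset Co) (Q : Finset D) : Set Iso :=
  {p | (∀ φ : Task, (Sum.inl φ : Co) ∈ R → (∀ d ∈ Q, d ∉ (φ y).1 → d ∈ p.1 φ) ∧
      ∀ d ∈ p.1 φ, ¬ (d ∈ (φ y).1 ∧ d ∈ Gb y.2)) ∧
    ∀ A : Set (P × P), (Sum.inr A : Co) ∈ R → (A ∈ p.2 ↔ y ∈ A)}

theorem Nb_mono {y : P × P} {R R' : Finset Co} {Q Q' : Finset D} (h : R ⊆ R') (h' : Q ⊆ Q') :
    Nb y R' Q' ⊆ Nb y R Q := by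
  rintro p ⟨h1, h2⟩
  exact ⟨fun φ hφ => ⟨fun d hd => (h1 φ (h hφ)).1 d (h' hd), (h1 φ (h hφ)).2⟩,
    fun A hA => h2 A (h hA)⟩

open Classical in
/-- trace filters of the second space -/
def nY (y : P × P) : Filter Iso where
  sets := {S | ∃ R Q, Nb y R Q ⊆ S}
  univ_sets := ⟨∅, ∅, subset_univ _⟩
  sets_of_superset := by
    rintro S T ⟨R, Q, h⟩ hST
    exact ⟨R, Q, h.trans hST⟩
  inter_sets := by
    rintro S T ⟨R, Q, h⟩ ⟨R', Q', h'⟩
    exact ⟨R ∪ R', Q ∪ Q', subset_inter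
      ((Nb_mono Finset.subset_union_left Finset.subset_union_left).trans h)
      ((Nb_mono Finset.subset_union_right Finset.subset_union_right).trans h')⟩

theorem mem_nY {y : P × P} {S : Set Iso} : S ∈ nY y ↔ ∃ R Q, Nb y R Q ⊆ S := Iff.rfl

/-- trace filters of the quotient -/
def nZ (f : P) : Filter Iso where
  sets := {S | ∀ g, S ∈ nY (f, g)}
  univ_sets := fun _ => univ_mem
  sets_of_superset := fun h hST g => mem_of_superset (h g) hST
  inter_sets := fun h h' g => inter_mem (h g) (h' g)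

theorem mem_nZ {f : P} {S : Set Iso} : S ∈ nZ f ↔ ∀ g, S ∈ nY (f, g) := Iff.rfl

theorem nY_in {y : P × P} {A : Set (P × P)} (h : y ∈ A) : {p : Iso | A ∈ p.2} ∈ nY y :=
  ⟨{Sum.inr A}, ∅, fun p hp => (hp.2 A (by simp)).2 h⟩

theorem nY_out {y : P × P} {A : Set (P × P)} (h : y ∉ A) : {p : Iso | A ∉ p.2} ∈ nY y :=
  ⟨{Sum.inr A}, ∅, fun p hp h' => h ((hp.2 A (by simp)).1 h')⟩

theorem nY_bad (y : P × P) (φ : Task) :
    {p : Iso | ∀ d ∈ p.1 φ, ¬ (d ∈ (φ y).1 ∧ d ∈ Gb y.2)} ∈ nY y :=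
  ⟨{Sum.inl φ}, ∅, fun p hp => (hp.1 φ (by simp)).2⟩

theorem nY_good {y : P × P} {φ : Task} {d : D} (h : d ∉ (φ y).1) :
    {p : Iso | d ∈ p.1 φ} ∈ nY y :=
  ⟨{Sum.inl φ}, {d}, fun p hp => (hp.1 φ (by simp)).1 d (by simp) h⟩

theorem P_inf : Infinite P := by
  classical
  have : Infinite (Zc 0) := by
    rw [← Cardinal.aleph0_le_mk_iff]
    exact Zc_inf 0
  refine Infinite.of_injective (fun z : Zc 0 =>
    (⟨fun l => {w | HEq w z}, fun l => Sm.finite ?_⟩ : P)) ?_
  · refine Set.Subsingleton.finite ?_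
    intro w hw w' hw'
    exact eq_of_heq (HEq.trans hw (HEq.symm hw'))
  · intro z z' h
    have h1 := congrFun (congrArg Subtype.val h) 0
    have h2 : z ∈ {w : Zc 0 | HEq w z'} := by
      have : z ∈ {w : Zc 0 | HEq w z} := HEq.rfl
      rw [← show ({w : Zc 0 | HEq w z} : Set (Zc 0)) = {w : Zc 0 | HEq w z'} from h1]
      exact this
    exact eq_of_heq h2

theorem nY_card (y : P × P) (k : ℕ) : {p : Iso | k ≤ p.2.card} ∈ nY y := by
  classical
  have := P_inf
  have hinf : Set.Infinite {A : Set (P × P) | y ∈ A} := by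
    refine Set.infinite_of_injective_forall_mem (f := fun z : P × P => ({y, z} : Set (P × P)))
      ?_ ?_
    · intro z z' h
      have h1 : z ∈ ({y, z'} : Set (P × P)) := by
        rw [← show ({y, z} : Set (P × P)) = {y, z'} from h]; simp
      have h2 : z' ∈ ({y, z} : Set (P × P)) := by
        rw [show ({y, z} : Set (P × P)) = {y, z'} from h]; simp
      rcases h1 with h1 | h1
      · rcases h2 with h2 | h2
        · rw [h1, h2]
        · exact h2.symm
      · exact h1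
    · intro z
      simp
  obtain ⟨t, ht, htk⟩ := hinf.exists_subset_card_eq k
  refine ⟨t.image Sum.inr, ∅, fun p hp => ?_⟩
  have : t ⊆ p.2 := by
    intro A hA
    exact (hp.2 A (Finset.mem_image_of_mem _ hA)).2 (ht hA)
  exact htk ▸ Finset.card_le_card this

theorem nY_compl (y : P × P) (p : Iso) : ({p}ᶜ : Set Iso) ∈ nY y := by
  filter_upwards [nY_card y (p.2.card + 1)] with q hq hq'
  rw [mem_singleton_iff] at hq'
  subst hq'
  exact absurd hq (by simp)

/-- the first space -/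
abbrev SX := Sp (fun _ : Unit => fF)

/-- the second space -/
abbrev SY := Sp nY

/-- the third space -/
abbrev SZ := Sp nZ

theorem SX_t35 : T35Space SX := by
  classical
  refine Sp.t35 (fun _ d => compl_mem d) fun A => ?_
  by_cases h : () ∈ A
  · exact ⟨univ, fun _ _ => univ_mem, fun t ht => absurd (by cases t; exact h) ht⟩
  · refine ⟨∅, fun t ht => absurd (by cases t; exact ht) h, fun t ht => ?_⟩
    rw [compl_empty]; exact univ_mem

theorem SY_t35 : T35Space SY := by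
  refine Sp.t35 (fun y p => nY_compl y p) fun A => ?_
  exact ⟨{p | A ∈ p.2}, fun t ht => nY_in ht, fun t ht => nY_out ht⟩

theorem SZ_t35 : T35Space SZ := by
  refine Sp.t35 (fun f p g => nY_compl (f, g) p) fun A => ?_
  refine ⟨{p | {y : P × P | y.1 ∈ A} ∈ p.2}, fun t ht g => nY_in (by exact ht),
    fun t ht g => nY_out (by exact ht)⟩

end Pool.Agent.Helper70.RS
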