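import Pool.Agent.Helper70.RS4

open Set Filter Cardinal

namespace Pool.Agent.Helper70.RS

/-- the non-isolated point of the first space -/
abbrev XA : SX := Sp.a _ ()

/-- the isolated points of the first space -/
abbrev XB (d : D) : SX := Sp.b _ d

/-- slices -/
def sl (H : Set (SX × SY)) (c : SX) : Set (P × P) := {y | (c, Sp.a nY y) ∈ H}

open Classical in
/-- the task of a closed set -/
noncomputable def tk (H : Set (SX × SY)) : Task := fun y =>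
  if h : {d | (XB d, Sp.a nY y) ∉ H} ∈ fF then ⟨_, h⟩ else ⟨univ, univ_mem⟩

theorem tk_spec {H : Set (SX × SY)} (hH : IsClosed H) {y : P × P}
    (hy : (XA, Sp.a nY y) ∉ H) : (tk H y).1 = {d | (XB d, Sp.a nY y) ∉ H} := by
  have h : {d | (XB d, Sp.a nY y) ∉ H} ∈ fF := by
    obtain ⟨F, S, hF, hS, hsub⟩ := exists_box hH.isOpen_compl (h := (XA, Sp.a nY y)) hy
    refine mem_of_superset (hF () rfl) fun d hd => ?_
    exact hsub (Set.mk_mem_prod (mem_bx_a.2 (Or.inr ⟨d, hd, rfl⟩)) (bx_self _ _))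
  unfold tk
  rw [dif_pos h]

/-- the conditions on the boxes -/
structure Cond (H K : Set (SX × SY)) (h : SX × SY) (F : Set D) (S : Set Iso) : Prop where
  oF : ∀ t, h.1 = Sp.a _ t → F ∈ fF
  oS : ∀ t, h.2 = Sp.a nY t → S ∈ nY t
  dj : bx h.1 F ×ˢ bx h.2 S ⊆ Kᶜ
  c1 : ∀ y, h.1 = XA → h.2 = Sp.a nY y → F ⊆ (tk K y).1 ∩ Gb y.2 ∧
    ∀ p ∈ S, (∀ d ∈ p.1 (tk K), ¬ (d ∈ (tk K y).1 ∧ d ∈ Gb y.2)) ∧
      sl H XA ∈ p.2 ∧ sl K XA ∉ p.2
  c2 : ∀ d y, h.1 = XB d → h.2 = Sp.a nY y → ∀ p ∈ S, d.1 ≤ p.2.card ∧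
    sl H (XB d) ∈ p.2 ∧ sl K (XB d) ∉ p.2 ∧ ((sl H XA ∈ p.2 ∧ sl K XA ∉ p.2) ∨ d ∈ p.1 (tk H))
  c3 : ∀ p, h.1 = XA → h.2 = Sp.b nY p → ∀ d ∈ F, p.2.card < d.1

theorem XA_ne {d : D} : XA ≠ XB d := Sp.a_ne_b

theorem cond_exists {H K : Set (SX × SY)} (hH : IsClosed H) (hK : IsClosed K)
    (hd : Disjoint H K) {h : SX × SY} (hh : h ∈ H) : ∃ F S, Cond H K h F S := by
  have hhK : h ∈ Kᶜ := fun h' => (disjoint_left.1 hd) hh h'
  obtain ⟨F0, S0, hF0, hS0, hsub⟩ := exists_box hK.isOpen_compl hhK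
  obtain ⟨x, z⟩ := h
  simp only at hF0 hS0 hsub
  rcases Sp.cases x with ⟨⟨⟩, rfl⟩ | ⟨d, rfl⟩
  · rcases Sp.cases z with ⟨y, rfl⟩ | ⟨p, rfl⟩
    · refine ⟨F0 ∩ ((tk K y).1 ∩ Gb y.2), S0 ∩ ({p | ∀ d ∈ p.1 (tk K), ¬ (d ∈ (tk K y).1 ∧
        d ∈ Gb y.2)} ∩ ({p | sl H XA ∈ p.2} ∩ {p | sl K XA ∉ p.2})), ?_, ?_, ?_, ?_, ?_, ?_⟩
      · intro t _
        exact inter_mem (hF0 () rfl) (inter_mem (tk K y).2 (Gb_mem _))
      · intro t ht
        have ht2 := Sp.a_inj.1 ht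
        subst ht2
        refine inter_mem (hS0 y rfl) (inter_mem (nY_bad y _) (inter_mem (nY_in hh) (nY_out hhK)))
      · exact (Set.prod_mono (bx_mono _ inter_subset_left)
          (bx_mono _ inter_subset_left)).trans hsub
      · intro y' _ hy'
        have ht2 := Sp.a_inj.1 hy'
        subst ht2
        exact ⟨inter_subset_right, fun p hp => ⟨hp.2.1, hp.2.2.1, hp.2.2.2⟩⟩
      · intro d y' h1
        exact absurd h1 XA_ne
      · intro p _ h2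
        exact absurd h2 Sp.a_ne_b
    · refine ⟨F0 ∩ {d | p.2.card < d.1}, S0, ?_, hS0, ?_, ?_, ?_, ?_⟩
      · intro t _
        exact inter_mem (hF0 () rfl) (large_mem _)
      · exact (Set.prod_mono (bx_mono _ inter_subset_left) Subset.rfl).trans hsub
      · intro y _ h2
        exact absurd h2 Sp.b_ne_a
      · intro d y' h1
        exact absurd h1 XA_ne
      · intro p' _ h2 d hd
        have h3 := Sp.b_inj.1 h2
        subst h3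
        exact hd.2
  · rcases Sp.cases z with ⟨y, rfl⟩ | ⟨p, rfl⟩
    · have hE : {p : Iso | (sl H XA ∈ p.2 ∧ sl K XA ∉ p.2) ∨ d ∈ p.1 (tk H)} ∈ nY y := by
        by_cases hy : (XA, Sp.a nY y) ∈ H
        · have hy2 : (XA, Sp.a nY y) ∉ K := fun h' => (disjoint_left.1 hd) hy h'
          filter_upwards [nY_in (A := sl H XA) hy, nY_out (A := sl K XA) hy2] with p h1 h2
          exact Or.inl ⟨h1, h2⟩
        · have h1 : d ∉ (tk H y).1 := by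
            rw [tk_spec hH hy]
            exact fun h' => h' hh
          filter_upwards [nY_good h1] with p h1
          exact Or.inr h1
      refine ⟨F0, S0 ∩ ({p | d.1 ≤ p.2.card} ∩ ({p | sl H (XB d) ∈ p.2} ∩
        ({p | sl K (XB d) ∉ p.2} ∩ {p : Iso | (sl H XA ∈ p.2 ∧ sl K XA ∉ p.2) ∨
          d ∈ p.1 (tk H)}))), hF0, ?_, ?_, ?_, ?_, ?_⟩
      · intro t ht
        have ht2 := Sp.a_inj.1 ht
        subst ht2
        exact inter_mem (hS0 y rfl) (inter_mem (nY_card y _) (inter_mem (nY_in hh)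
          (inter_mem (nY_out hhK) hE)))
      · exact (Set.prod_mono Subset.rfl (bx_mono _ inter_subset_left)).trans hsub
      · intro y' h1
        exact absurd h1.symm XA_ne
      · intro d' y' h1 _ p hp
        have ht2 := Sp.b_inj.1 h1
        subst ht2
        exact ⟨hp.2.1, hp.2.2.1, hp.2.2.2.1, hp.2.2.2.2⟩
      · intro p h1
        exact absurd h1.symm XA_ne
    · refine ⟨F0, S0, hF0, hS0, hsub, ?_, ?_, ?_⟩
      · intro y' h1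
        exact absurd h1.symm XA_ne
      · intro d' y' _ h2
        exact absurd h2 Sp.b_ne_a
      · intro p h1
        exact absurd h1.symm XA_ne

theorem bxbx {T I : Type} {n : T → Filter I} {x x' z : Sp n} {F F' : Set I}
    (h : z ∈ bx x F) (h' : z ∈ bx x' F') :
    x = x' ∨ (∃ t t' p, x = Sp.a n t ∧ x' = Sp.a n t' ∧ p ∈ F ∧ p ∈ F') ∨
      (∃ t p, x = Sp.a n t ∧ x' = Sp.b n p ∧ p ∈ F) ∨
      (∃ t p, x' = Sp.a n t ∧ x = Sp.b n p ∧ p ∈ F') := by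
  rcases h with rfl | ⟨⟨t, rfl⟩, p, hp, rfl⟩
  · rcases h' with rfl | ⟨⟨t', rfl⟩, p', hp', rfl⟩
    · exact Or.inl rfl
    · exact Or.inr (Or.inr (Or.inr ⟨t', p', rfl, rfl, hp'⟩))
  · rcases h' with h' | ⟨⟨t', rfl⟩, p', hp', h'⟩
    · exact Or.inr (Or.inr (Or.inl ⟨t, p, rfl, h'.symm, hp⟩))
    · have := Sp.b_inj.1 h'
      subst this
      exact Or.inr (Or.inl ⟨t, t', p, rfl, rfl, hp, hp'⟩)

theorem caseA {H K : Set (SX × SY)} {F F' : Set D} {S S' : Set Iso} {y y' : P × P} {d : D}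
    (h : Cond H K (XA, Sp.a nY y) F S) (k : Cond K H (XB d, Sp.a nY y') F' S')
    (hd : d ∈ F) {p : Iso} (hp : p ∈ S) (hp' : p ∈ S') : False := by
  obtain ⟨h1, h2⟩ := h.c1 y rfl rfl
  obtain ⟨h3, h4, h5⟩ := h2 p hp
  obtain ⟨k1, k2, k3, k4⟩ := k.c2 d y' rfl rfl p hp'
  rcases k4 with ⟨k4, k5⟩ | k4
  · exact k5 h4
  · exact h3 d k4 (h1 hd)

theorem caseB {H K : Set (SX × SY)} {F F' : Set D} {S S' : Set Iso} {y' : P × P} {d : D} {p : Iso}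
    (h : Cond H K (XA, Sp.b nY p) F S) (k : Cond K H (XB d, Sp.a nY y') F' S')
    (hd : d ∈ F) (hp' : p ∈ S') : False := by
  have h1 := h.c3 p rfl rfl d hd
  have h2 := (k.c2 d y' rfl rfl p hp').1
  omega

theorem boxes_disjoint {H K : Set (SX × SY)} (hd : Disjoint H K) {h k : SX × SY} (hh : h ∈ H)
    (hk : k ∈ K) {F F' : Set D} {S S' : Set Iso} (ch : Cond H K h F S) (ck : Cond K H k F' S')
    {z : SX × SY} (hz : z ∈ bx h.1 F ×ˢ bx h.2 S) (hz' : z ∈ bx k.1 F' ×ˢ bx k.2 S') : False := by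
  have hne : h ≠ k := fun h' => (disjoint_left.1 hd) hh (h' ▸ hk)
  have hkW : k ∉ bx h.1 F ×ˢ bx h.2 S := fun h' => ch.dj h' hk
  have hhW : h ∉ bx k.1 F' ×ˢ bx k.2 S' := fun h' => ck.dj h' hh
  obtain ⟨x, y⟩ := h
  obtain ⟨x', y'⟩ := k
  have hX := bxbx hz.1 hz'.1
  have hY := bxbx hz.2 hz'.2
  simp only at hX hY hkW hhW
  rcases hX with rfl | ⟨⟨⟩, ⟨⟩, _, rfl, rfl, _, _⟩ | ⟨⟨⟩, d, rfl, rfl, hd1⟩ | ⟨⟨⟩, d, rfl, rfl, hd1⟩
  · rcases hY with rfl | ⟨t, t', p, rfl, rfl, hp, hp'⟩ | ⟨t, p, rfl, rfl, hp⟩ | ⟨t, p, rfl, rfl, hp⟩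
    · exact hne rfl
    · rcases Sp.cases x with ⟨⟨⟩, rfl⟩ | ⟨d, rfl⟩
      · exact ((ck.c1 t' rfl rfl).2 p hp').2.2 ((ch.c1 t rfl rfl).2 p hp).2.1
      · exact (ck.c2 d t' rfl rfl p hp').2.2.1 (ch.c2 d t rfl rfl p hp).2.1
    · exact hkW (Set.mk_mem_prod (bx_self _ _) (mem_bx_a.2 (Or.inr ⟨p, hp, rfl⟩)))
    · exact hhW (Set.mk_mem_prod (bx_self _ _) (mem_bx_a.2 (Or.inr ⟨p, hp, rfl⟩)))
  · rcases hY with rfl | ⟨t, t', p, rfl, rfl, hp, hp'⟩ | ⟨t, p, rfl, rfl, hp⟩ | ⟨t, p, rfl, rfl, hp⟩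
    · exact hne rfl
    · exact ((ck.c1 t' rfl rfl).2 p hp').2.2 ((ch.c1 t rfl rfl).2 p hp).2.1
    · exact hkW (Set.mk_mem_prod (bx_self _ _) (mem_bx_a.2 (Or.inr ⟨p, hp, rfl⟩)))
    · exact hhW (Set.mk_mem_prod (bx_self _ _) (mem_bx_a.2 (Or.inr ⟨p, hp, rfl⟩)))
  · rcases hY with rfl | ⟨t, t', p, rfl, rfl, hp, hp'⟩ | ⟨t, p, rfl, rfl, hp⟩ | ⟨t, p, rfl, rfl, hp⟩
    · exact hkW (Set.mk_mem_prod (mem_bx_a.2 (Or.inr ⟨d, hd1, rfl⟩)) (bx_self _ _))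
    · exact caseA ch ck hd1 hp hp'
    · exact hkW (Set.mk_mem_prod (mem_bx_a.2 (Or.inr ⟨d, hd1, rfl⟩))
        (mem_bx_a.2 (Or.inr ⟨p, hp, rfl⟩)))
    · exact caseB ch ck hd1 hp
  · rcases hY with rfl | ⟨t, t', p, rfl, rfl, hp, hp'⟩ | ⟨t, p, rfl, rfl, hp⟩ | ⟨t, p, rfl, rfl, hp⟩
    · exact hhW (Set.mk_mem_prod (mem_bx_a.2 (Or.inr ⟨d, hd1, rfl⟩)) (bx_self _ _))
    · exact caseA ck ch hd1 hp' hp
    · exact caseB ck ch hd1 hp
    · exact hhW (Set.mk_mem_prod (mem_bx_a.2 (Or.inr ⟨d, hd1, rfl⟩))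
        (mem_bx_a.2 (Or.inr ⟨p, hp, rfl⟩)))

theorem XY_normal : NormalSpace (SX × SY) := by
  refine ⟨fun H K hH hK hd => ?_⟩
  have h1 : ∀ h : H, ∃ F S, Cond H K h.1 F S := fun h => cond_exists hH hK hd h.2
  have h2 : ∀ k : K, ∃ F S, Cond K H k.1 F S := fun k => cond_exists hK hH hd.symm k.2
  choose F S hFS using h1
  choose F' S' hFS' using h2
  refine ⟨⋃ h : H, bx h.1.1 (F h) ×ˢ bx h.1.2 (S h), ⋃ k : K, bx k.1.1 (F' k) ×ˢ bx k.1.2 (S' k),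
    ?_, ?_, ?_, ?_, ?_⟩
  · exact isOpen_iUnion fun h => (bx_open (hFS h).oF).prod (bx_open (hFS h).oS)
  · exact isOpen_iUnion fun h => (bx_open (hFS' h).oF).prod (bx_open (hFS' h).oS)
  · intro h hh
    exact mem_iUnion.2 ⟨⟨h, hh⟩, Set.mk_mem_prod (bx_self _ _) (bx_self _ _)⟩
  · intro h hh
    exact mem_iUnion.2 ⟨⟨h, hh⟩, Set.mk_mem_prod (bx_self _ _) (bx_self _ _)⟩
  · rw [disjoint_left]
    intro z hz hz'
    obtain ⟨h, hz⟩ := mem_iUnion.1 hz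
    obtain ⟨k, hz'⟩ := mem_iUnion.1 hz'
    exact boxes_disjoint hd h.2 k.2 (hFS h) (hFS' k) hz hz'

end Pool.Agent.Helper70.RS
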