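import Pool.Agent.Helper70.RS5

open Set Filter

namespace Pool.Agent.Helper70.RS

/-- the point of the third space -/
abbrev ZA (f : P) : SZ := Sp.a nZ f

theorem closedH : IsClosed {z : SX × SZ | ∃ f, z = (XA, ZA f)} := by
  rw [← isOpen_compl_iff]
  refine open_of_box fun h hh => ?_
  obtain ⟨x, z⟩ := h
  refine ⟨univ, univ, fun _ _ => univ_mem, fun _ _ => univ_mem, ?_⟩
  rintro ⟨u, v⟩ ⟨hu, hv⟩ ⟨f, hf⟩
  have h1 : u = XA := congrArg Prod.fst hf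
  have h2 : v = ZA f := congrArg Prod.snd hf
  simp only at hu hv
  rw [h1] at hu
  rw [h2] at hv
  have hx : x = XA := by
    rcases hu with hu | ⟨_, p, _, hp⟩
    · exact hu.symm
    · exact absurd hp Sp.a_ne_b
  have hz : z = ZA f := by
    rcases hv with hv | ⟨_, p, _, hp⟩
    · exact hv.symm
    · exact absurd hp Sp.a_ne_b
  exact hh ⟨f, by rw [hx, hz]⟩

theorem closedK : IsClosed {z : SX × SZ | ∃ (f : P) (d : D), d.2 ∈ f.1 d.1 ∧
    z = (XB d, ZA f)} := by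
  rw [← isOpen_compl_iff]
  refine open_of_box fun h hh => ?_
  obtain ⟨x, z⟩ := h
  rcases Sp.cases z with ⟨f, rfl⟩ | ⟨p, rfl⟩
  · rcases Sp.cases x with ⟨⟨⟩, rfl⟩ | ⟨d, rfl⟩
    · refine ⟨Gb f, univ, fun _ _ => Gb_mem f, fun _ _ => univ_mem, ?_⟩
      rintro ⟨u, v⟩ ⟨hu, hv⟩ ⟨f', d, hd, hf⟩
      have h1 : u = XB d := congrArg Prod.fst hf
      have h2 : v = ZA f' := congrArg Prod.snd hf
      simp only at hu hv
      rw [h1, mem_bx_a] at hu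
      rw [h2, mem_bx_a] at hv
      have hz : f' = f := by
        rcases hv with hv | ⟨p, _, hp⟩
        · exact Sp.a_inj.1 hv
        · exact absurd hp Sp.a_ne_b
      subst hz
      rcases hu with hu | ⟨p, hp, hp'⟩
      · exact Sp.b_ne_a hu
      · have := Sp.b_inj.1 hp'
        subst this
        exact hp hd
    · refine ⟨univ, univ, fun _ _ => univ_mem, fun _ _ => univ_mem, ?_⟩
      rintro ⟨u, v⟩ ⟨hu, hv⟩ ⟨f', d', hd, hf⟩
      have h1 : u = XB d' := congrArg Prod.fst hf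
      have h2 : v = ZA f' := congrArg Prod.snd hf
      simp only at hu hv
      rw [h1, mem_bx_b] at hu
      rw [h2, mem_bx_a] at hv
      have hz : f' = f := by
        rcases hv with hv | ⟨p, _, hp⟩
        · exact Sp.a_inj.1 hv
        · exact absurd hp Sp.a_ne_b
      subst hz
      have := Sp.b_inj.1 hu
      subst this
      exact hh ⟨f', d', hd, rfl⟩
  · refine ⟨univ, univ, fun _ _ => univ_mem, fun _ _ => univ_mem, ?_⟩
    rintro ⟨u, v⟩ ⟨hu, hv⟩ ⟨f', d', hd, hf⟩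
    have h2 : v = ZA f' := congrArg Prod.snd hf
    simp only at hu hv
    rw [h2, mem_bx_b] at hv
    exact absurd hv Sp.a_ne_b

/-- values of a coordinate -/
def cV (x : Co) (f g : P) : Set D := Sum.elim (fun φ : Task => (φ (f, g)).1) (fun _ => univ) x

/-- bits of a coordinate -/
def cb (x : Co) (f g : P) : Prop :=
  Sum.elim (fun _ : Task => True) (fun A : Set (P × P) => (f, g) ∈ A) x

open Classical in
/-- a common point of two trace neighbourhoods -/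
theorem common {y y' : P × P} {R R' : Finset Co} {Q Q' : Finset D}
    (h : ∀ x, x ∈ R → x ∈ R' →
      (∀ e ∈ Q, e ∉ cV x y.1 y.2 → e ∉ cV x y'.1 y'.2 ∨ e.2 ∈ y'.2.1 e.1) ∧
      (∀ e ∈ Q', e ∉ cV x y'.1 y'.2 → e ∉ cV x y.1 y.2 ∨ e.2 ∈ y.2.1 e.1) ∧
      (cb x y.1 y.2 ↔ cb x y'.1 y'.2)) : (Nb y R Q ∩ Nb y' R' Q').Nonempty := by
  classical
  have hfin : {A : Set (P × P) | ((Sum.inr A : Co) ∈ R ∧ y ∈ A) ∨
      ((Sum.inr A : Co) ∈ R' ∧ y' ∈ A)}.Finite := by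
    refine Set.Finite.subset (s := (fun A => (Sum.inr A : Co)) ⁻¹' ((R ∪ R' : Finset Co) : Set Co))
      ?_ ?_
    · refine (Finset.finite_toSet _).preimage ?_
      intro a _ b _ hab
      exact Sum.inr_injective hab
    · rintro A (hA | hA)
      · exact Finset.mem_coe.2 (Finset.mem_union_left _ hA.1)
      · exact Finset.mem_coe.2 (Finset.mem_union_right _ hA.1)
  let p : Iso := (fun φ => {e | ((Sum.inl φ : Co) ∈ R ∧ e ∈ Q ∧ e ∉ (φ y).1) ∨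
      ((Sum.inl φ : Co) ∈ R' ∧ e ∈ Q' ∧ e ∉ (φ y').1)}, hfin.toFinset)
  have hp2 : ∀ A, A ∈ p.2 ↔ ((Sum.inr A : Co) ∈ R ∧ y ∈ A) ∨ ((Sum.inr A : Co) ∈ R' ∧ y' ∈ A) :=
    fun A => hfin.mem_toFinset
  refine ⟨p, ⟨fun φ hφ => ⟨fun d hd hd' => Or.inl ⟨hφ, hd, hd'⟩, ?_⟩, fun A hA => ?_⟩,
    ⟨fun φ hφ => ⟨fun d hd hd' => Or.inr ⟨hφ, hd, hd'⟩, ?_⟩, fun A hA => ?_⟩⟩
  · rintro d (⟨_, _, h1⟩ | ⟨h1, h2, h3⟩) ⟨h4, h5⟩
    · exact h1 h4
    · rcases (h _ hφ h1).2.1 d h2 h3 with h6 | h6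
      · exact h6 h4
      · exact h5 h6
  · rw [hp2]
    constructor
    · rintro (⟨_, h1⟩ | ⟨h1, h2⟩)
      · exact h1
      · exact (h _ hA h1).2.2.2 h2
    · exact fun h1 => Or.inl ⟨hA, h1⟩
  · rintro d (⟨h1, h2, h3⟩ | ⟨_, _, h1⟩) ⟨h4, h5⟩
    · rcases (h _ h1 hφ).1 d h2 h3 with h6 | h6
      · exact h6 h4
      · exact h5 h6
    · exact h1 h4
  · rw [hp2]
    constructor
    · rintro (⟨h1, h2⟩ | ⟨_, h1⟩)
      · exact (h _ h1 hA).2.2.1 h2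
      · exact h1
    · exact fun h1 => Or.inr ⟨hA, h1⟩

theorem XZ_not_normal : ¬ NormalSpace (SX × SZ) := by
  classical
  intro hN
  obtain ⟨U, W, hU, hW, hHU, hKW, hUW⟩ := hN.normal _ _ closedH closedK (by
    rw [disjoint_left]
    rintro z ⟨f, rfl⟩ ⟨f', d, _, h⟩
    exact XA_ne (congrArg Prod.fst h))
  have h1 : ∀ f : P, ∃ (F : Set D) (S : Set Iso), F ∈ fF ∧ S ∈ nZ f ∧
      ∀ d ∈ F, ∀ p ∈ S, (XB d, Sp.b nZ p) ∈ U := by
    intro f
    obtain ⟨F, S, hF, hS, hsub⟩ := exists_box hU (hHU ⟨f, rfl⟩ : (XA, ZA f) ∈ U)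
    refine ⟨F, S, hF () rfl, hS f rfl, fun d hd p hp => hsub ?_⟩
    exact Set.mk_mem_prod (mem_bx_a.2 (Or.inr ⟨d, hd, rfl⟩)) (mem_bx_a.2 (Or.inr ⟨p, hp, rfl⟩))
  choose B S hB hS hBS using h1
  have h2 : ∀ (d : D) (f : P), ∃ (S : Set Iso), S ∈ nZ f ∧ (d.2 ∈ f.1 d.1 →
      ∀ p ∈ S, (XB d, Sp.b nZ p) ∈ W) := by
    intro d f
    by_cases hd : d.2 ∈ f.1 d.1
    · obtain ⟨F, S, hF, hS, hsub⟩ := exists_box hW (hKW ⟨f, d, hd, rfl⟩ : (XB d, ZA f) ∈ W)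
      refine ⟨S, hS f rfl, fun _ p hp => hsub ?_⟩
      exact Set.mk_mem_prod (bx_self _ _) (mem_bx_a.2 (Or.inr ⟨p, hp, rfl⟩))
    · exact ⟨univ, univ_mem, fun h => absurd h hd⟩
  choose S' hS' hBS' using h2
  have h3 : ∀ f g : P, ∃ R Q, Nb (f, g) R Q ⊆ S f := fun f g => hS f g
  choose R Q hRQ using h3
  have h4 : ∀ (d : D) (f g : P), ∃ R Q, Nb (f, g) R Q ⊆ S' d f := fun d f g => hS' d f g
  choose R' Q' hRQ' using h4
  obtain ⟨f, g, f', g', d, hdB, hdf, hcore⟩ := core cV cb B (fun f => hB f) R Q R' Q'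
  obtain ⟨p, hp, hp'⟩ := common (y := (f, g)) (y' := (f', g')) (R := R f g) (R' := R' d f' g')
    (Q := Q f g) (Q' := Q' d f' g') hcore
  exact (disjoint_left.1 hUW) (hBS f d hdB p (hRQ f g hp)) (hBS' d f' hdf p (hRQ' d f' g' hp'))

theorem main : ∃ (X Y Z : Type) (_ : TopologicalSpace X) (_ : TopologicalSpace Y)
    (_ : TopologicalSpace Z),
    T35Space X ∧ T35Space Y ∧ T35Space Z ∧ ParacompactSpace X ∧ NormalSpace (X × Y) ∧
    (∃ f : Y → Z, Continuous f ∧ IsClosedMap f ∧ Function.Surjective f) ∧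
    ¬ NormalSpace (X × Z) := by
  have : Nonempty P := ⟨⟨fun _ => ∅, fun l => Sm.empty l⟩⟩
  exact ⟨SX, SY, SZ, inferInstance, inferInstance, inferInstance, SX_t35, SY_t35, SZ_t35,
    Sp.paracompact _, XY_normal, ⟨qm nY nZ, qm_cont fun f S => Iff.rfl,
      qm_closed fun f S => Iff.rfl, qm_surj⟩, XZ_not_normal⟩

end Pool.Agent.Helper70.RS
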